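import Pool.Agent.N893.TB.Stm

set_option autoImplicit false

/-! # Project TB (helper893): leaf FINAL (helper985), from the counts to the ratio -/

namespace Pool.Agent.N985.TB.FINAL

open Filter Finset
open scoped Topology
open Pool.Agent.N893.TB

theorem lim_aux (n : ℕ) :
    Tendsto (fun K : ℕ => (1 + (K : ℝ) ^ (3 / 4 : ℝ)) * (Real.log K ^ n / K)) atTop (𝓝 0) := by
  have h : Tendsto (fun x : ℝ => (1 + x ^ (3 / 4 : ℝ)) * (Real.log x ^ n / x)) atTop (𝓝 0) := by
    have a1 : Tendsto (fun x : ℝ => Real.log x ^ n / x) atTop (𝓝 0) := by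
      have := Real.tendsto_pow_log_div_mul_add_atTop 1 0 n one_ne_zero
      simpa using this
    have a2 : Tendsto (fun x : ℝ => Real.log x ^ (n : ℝ) / x ^ (1 / 4 : ℝ)) atTop (𝓝 0) :=
      (isLittleO_log_rpow_rpow_atTop (n : ℝ) (by norm_num : (0 : ℝ) < 1 / 4)).tendsto_div_nhds_zero
    have a3 := a1.add a2
    rw [add_zero] at a3
    refine a3.congr' ?_
    filter_upwards [eventually_gt_atTop 0] with x hx
    have e1 : x = x ^ (3 / 4 : ℝ) * x ^ (1 / 4 : ℝ) := by
      rw [← Real.rpow_add hx]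
      norm_num
    have e2 : x ^ (3 / 4 : ℝ) * (Real.log x ^ n / x) = Real.log x ^ n / x ^ (1 / 4 : ℝ) := by
      have h3 : (0 : ℝ) < x ^ (3 / 4 : ℝ) := Real.rpow_pos_of_pos hx _
      have h4 : (0 : ℝ) < x ^ (1 / 4 : ℝ) := Real.rpow_pos_of_pos hx _
      rw [mul_div_assoc', div_eq_div_iff hx.ne' h4.ne']
      calc x ^ (3 / 4 : ℝ) * Real.log x ^ n * x ^ (1 / 4 : ℝ) =
          Real.log x ^ n * (x ^ (3 / 4 : ℝ) * x ^ (1 / 4 : ℝ)) := by ring
        _ = Real.log x ^ n * x := by rw [← e1]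
    rw [Real.rpow_natCast, add_mul, one_mul, e2]
  exact h.comp tendsto_natCast_atTop_atTop

theorem kap : Tendsto (fun x : ℕ => (x + 1) / 6) atTop atTop := by
  refine tendsto_atTop.2 fun b => ?_
  filter_upwards [eventually_ge_atTop (6 * b)] with x hx
  omega

theorem quot : Tendsto (fun x : ℕ => Real.log x / Real.log ((x + 1) / 6 : ℕ)) atTop (𝓝 1) := by
  have hl : Tendsto (fun x : ℕ => Real.log (((x + 1) / 6 : ℕ) : ℝ)) atTop atTop :=
    Real.tendsto_log_atTop.comp (tendsto_natCast_atTop_atTop.comp kap)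
  have h1 : Tendsto (fun x : ℕ => 1 + Real.log 11 / Real.log (((x + 1) / 6 : ℕ) : ℝ)) atTop
      (𝓝 1) := by
    have h2 := (hl.const_div_atTop (Real.log 11)).const_add 1
    rwa [add_zero] at h2
  refine tendsto_of_tendsto_of_tendsto_of_le_of_le' tendsto_const_nhds h1 ?_ ?_
  · filter_upwards [eventually_ge_atTop 20] with x hx
    have hk : 2 ≤ (x + 1) / 6 := by omega
    have hk' : (x + 1) / 6 ≤ x := by omega
    have h3 : 0 < Real.log (((x + 1) / 6 : ℕ) : ℝ) := Real.log_pos (by exact_mod_cast hk)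
    rw [le_div_iff₀ h3, one_mul]
    exact Real.log_le_log (by exact_mod_cast (by omega : 0 < (x + 1) / 6)) (by exact_mod_cast hk')
  · filter_upwards [eventually_ge_atTop 20] with x hx
    have hk : 2 ≤ (x + 1) / 6 := by omega
    have hk' : x ≤ 11 * ((x + 1) / 6) := by omega
    have h3 : 0 < Real.log (((x + 1) / 6 : ℕ) : ℝ) := Real.log_pos (by exact_mod_cast hk)
    have h4 : (0 : ℝ) < (((x + 1) / 6 : ℕ) : ℝ) := by exact_mod_cast (by omega : 0 < (x + 1) / 6)
    have h5 : Real.log x ≤ Real.log 11 + Real.log (((x + 1) / 6 : ℕ) : ℝ) := by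
      rw [← Real.log_mul (by norm_num) h4.ne']
      exact Real.log_le_log (by exact_mod_cast (by omega : 0 < x)) (by exact_mod_cast hk')
    rw [div_le_iff₀ h3, add_mul, div_mul_cancel₀ _ h3.ne']
    linarith

theorem main : tFINAL := by
  intro T c α C hc hα _ h1 h2 h3 P R hP hR
  -- abbreviations
  obtain ⟨κ, hκ⟩ : ∃ κ : ℕ → ℕ, ∀ x, κ x = (x + 1) / 6 := ⟨_, fun _ => rfl⟩
  have hκt : Tendsto κ atTop atTop := by
    have : κ = fun x => (x + 1) / 6 := funext hκ
    rw [this]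
    exact kap
  have hq : Tendsto (fun x : ℕ => Real.log x / Real.log (κ x)) atTop (𝓝 1) := by
    have := quot
    simp only [← hκ] at this
    exact this
  simp only [← hκ] at hP hR
  set N : ℕ → ℝ := fun K => ∑ k ∈ range K, T k with hN
  set D : ℕ → ℝ := fun K => ∑ k ∈ range K, T k * hh T k with hD
  set E : ℕ → ℝ := fun K => ∑ k ∈ range K, (-1) ^ k * T k with hE
  have hsum : ∀ K, ∑ k ∈ range K, T k * (hh T k + 1 / 2) = D K + N K / 2 := by
    intro K
    rw [hD, hN]
    simp only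
    rw [Finset.sum_div, ← Finset.sum_add_distrib]
    exact Finset.sum_congr rfl fun k _ => by ring
  have hg : ∀ K : ℕ, 0 ≤ 1 + (K : ℝ) ^ (3 / 4 : ℝ) := fun K => by positivity
  have hg1 : ∀ K : ℕ, 1 ≤ 1 + (K : ℝ) ^ (3 / 4 : ℝ) := fun K => by
    have : 0 ≤ (K : ℝ) ^ (3 / 4 : ℝ) := by positivity
    linarith
  have hEb : ∀ K, |E K| ≤ |C| * (1 + (K : ℝ) ^ (3 / 4 : ℝ)) := fun K =>
    (h3 K).trans (mul_le_mul_of_nonneg_right (le_abs_self C) (hg K))
  have hPb : ∀ x, |P x - R x / 2 - D (κ x) / 2| ≤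
      (2 + |C| / 4) * (1 + (κ x : ℝ) ^ (3 / 4 : ℝ)) := by
    intro x
    have h4 := hP x
    rw [hsum] at h4
    have h5 := hR x
    have h6 := hEb (κ x)
    have h7 := hg1 (κ x)
    have h8 : |R x - N (κ x) / 2| ≤ |E (κ x)| / 2 := h5
    rw [abs_le] at h4 h8 ⊢
    constructor <;> nlinarith [h4.1, h4.2, h8.1, h8.2]
  have hRb : ∀ x, |R x - N (κ x) / 2| ≤ (|C| / 2) * (1 + (κ x : ℝ) ^ (3 / 4 : ℝ)) := by
    intro x
    have h8 : |R x - N (κ x) / 2| ≤ |E (κ x)| / 2 := hR x
    have h6 := hEb (κ x)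
    linarith
  -- the numerator
  have hnum : Tendsto (fun x => (P x - R x / 2) * (Real.log (κ x) ^ 4 / κ x)) atTop
      (𝓝 (α * c ^ 4 / 8)) := by
    have e1 : Tendsto (fun x => (P x - R x / 2 - D (κ x) / 2) * (Real.log (κ x) ^ 4 / κ x)) atTop
        (𝓝 0) := by
      have e2 := ((lim_aux 4).comp hκt).const_mul (2 + |C| / 4)
      rw [mul_zero] at e2
      refine squeeze_zero_norm (fun x => ?_) e2
      rw [Real.norm_eq_abs, abs_mul, Function.comp_apply, ← mul_assoc]
      have e3 : |Real.log (κ x) ^ 4 / (κ x : ℝ)| = Real.log (κ x) ^ 4 / κ x :=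
        abs_of_nonneg (by positivity)
      rw [e3]
      exact mul_le_mul_of_nonneg_right (hPb x) (by positivity)
    have e4 := ((h2.comp hκt).div_const 2).add e1
    refine (e4.congr fun x => ?_).trans (by rw [add_zero]; apply le_of_eq; congr 1; ring)
    simp only [Function.comp_apply]
    change D (κ x) * Real.log (κ x) ^ 4 / (κ x) / 2 + _ = _
    ring
  -- the denominator
  have hden : Tendsto (fun x => R x * (Real.log (κ x) ^ 2 / κ x)) atTop (𝓝 (α * c ^ 2 / 2)) := by
    have e1 : Tendsto (fun x => (R x - N (κ x) / 2) * (Real.log (κ x) ^ 2 / κ x)) atTop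
        (𝓝 0) := by
      have e2 := ((lim_aux 2).comp hκt).const_mul (|C| / 2)
      rw [mul_zero] at e2
      refine squeeze_zero_norm (fun x => ?_) e2
      rw [Real.norm_eq_abs, abs_mul, Function.comp_apply, ← mul_assoc]
      have e3 : |Real.log (κ x) ^ 2 / (κ x : ℝ)| = Real.log (κ x) ^ 2 / κ x :=
        abs_of_nonneg (by positivity)
      rw [e3]
      exact mul_le_mul_of_nonneg_right (hRb x) (by positivity)
    have e4 := ((h1.comp hκt).div_const 2).add e1
    refine (e4.congr fun x => ?_).trans (by rw [add_zero])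
    simp only [Function.comp_apply]
    change N (κ x) * Real.log (κ x) ^ 2 / (κ x) / 2 + _ = _
    ring
  have hpos : 0 < α * c ^ 2 / 2 := by positivity
  have hfin := (hnum.mul (hq.pow 2)).div hden hpos.ne'
  have hval : α * c ^ 4 / 8 * 1 ^ 2 / (α * c ^ 2 / 2) = c ^ 2 / 4 := by
    field_simp
    ring
  rw [hval] at hfin
  refine hfin.congr' ?_
  filter_upwards [hden.eventually (lt_mem_nhds hpos), hκt.eventually_ge_atTop 2] with x hx1 hx2
  have hR0 : R x ≠ 0 := by
    intro h0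
    rw [h0, zero_mul] at hx1
    exact lt_irrefl _ hx1
  have hlog : Real.log (κ x) ≠ 0 := (Real.log_pos (by exact_mod_cast hx2)).ne'
  have hk0 : (κ x : ℝ) ≠ 0 := by
    have : (0 : ℝ) < κ x := by exact_mod_cast (by omega : 0 < κ x)
    exact this.ne'
  simp only [Pi.div_apply]
  field_simp

end Pool.Agent.N985.TB.FINAL
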